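import Pool.Agent.H.MP_944b5f_al.A

set_option autoImplicit false

namespace Pool.Agent.Results.MP_944b5f_al.Equal

open Set

/-- Operations on `ℕ` of arity `n + 1`. -/
abbrev Op (n : ℕ) : Type := (Fin (n + 1) → ℕ) → ℕ

/-- A clone: sets `C n` of operations of arity `n + 1`, containing all projections and closed
under composition. -/
structure IsClone (C : ∀ n, Set (Op n)) : Prop where
  proj : ∀ n (i : Fin (n + 1)), (fun x => x i) ∈ C n
  comp : ∀ n m, ∀ f ∈ C n, ∀ g : Fin (n + 1) → Op m, (∀ i, g i ∈ C m) →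
    (fun x => f fun i => g i x) ∈ C m

/-- The clone generated by a set of binary operations. -/
def gen (S : Set (Op 1)) (n : ℕ) : Set (Op n) := {f | ∀ C, IsClone C → S ⊆ C 1 → f ∈ C n}

/-- The nowhere 1-1 binary operations. -/
def T2 : Set (Op 1) := {f | ¬ ∃ u v : ℕ → ℕ,
  InjOn (fun p : ℕ × ℕ => f ![u p.1, v p.2]) {p | p.1 < p.2} ∨
  InjOn (fun p : ℕ × ℕ => f ![u p.1, v p.2]) {p | p.1 > p.2}}

open Pool.Agent.H.MP_944b5f_al

theorem swap {H : ℕ → ℕ → ℕ} : InjOn (fun p : ℕ × ℕ => H p.1 p.2) {p | p.1 < p.2} ↔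
    InjOn (fun p : ℕ × ℕ => H p.2 p.1) Δ :=
  ⟨fun h p hp q hq e => Prod.swap_injective (h (x₁ := p.swap) hp (x₂ := q.swap) hq e),
    fun h p hp q hq e => Prod.swap_injective (h (x₁ := p.swap) hp (x₂ := q.swap) hq e)⟩

theorem T2_iff {f : Op 1} : f ∈ T2 ↔ NW fun a b => f ![a, b] := by
  simp only [T2, mem_setOf_eq, not_exists, not_or, NW]
  exact forall₂_congr fun u v => by
    rw [swap (H := fun a b => f ![u a, v b]), and_comm]; rfl

theorem T2_G {f : Op 1} : f ∈ T2 ↔ G f := by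
  constructor
  · intro h
    convert G.comp _ _ _ (T2_iff.1 h) (G.proj (0 : Fin 2)) (G.proj 1) using 3 with x
    ext i; fin_cases i <;> rfl
  · refine fun h => T2_iff.2 fun u v => ⟨?_, ?_⟩
    · convert h.nwn ![true, false] ![u, v] using 4 with p
      ext i; fin_cases i <;> rfl
    · convert h.nwn ![false, true] ![u, v] using 4 with p
      ext i; fin_cases i <;> rfl

theorem gen_G {n : ℕ} {f : Op n} : f ∈ gen T2 n ↔ G f := by
  refine ⟨fun h => h (fun _ => {f | G f}) ⟨fun _ i => G.proj i, fun _ _ f hf g hg => hf.subst g hg⟩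
    fun f hf => T2_G.1 hf, fun h C hC hT => ?_⟩
  induction h with
  | proj i => exact hC.proj _ i
  | comp g f1 f2 hg _ _ h1 h2 =>
    exact hC.comp 1 n (fun x => g (x 0) (x 1)) (hT (T2_iff.2 hg)) ![f1, f2]
      (Fin.forall_fin_two.2 ⟨h1, h2⟩)

theorem pol {n : ℕ} {f : Op n} (h : ∀ g : Fin (n + 1) → Op 1, (∀ i, g i ∈ T2) →
    (fun x => f fun i => g i x) ∈ T2) : G f := by
  refine (iff f).2 fun s u => ?_
  have := T2_iff.1 (h (fun i x => u i (x (if s i then 0 else 1))) fun i =>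
    T2_G.2 ((G.proj _).un _)) id id
  convert this.1 using 5 with p i
  split_ifs <;> rfl

theorem result :
    (IsClone (gen T2) ∧ gen T2 1 = T2 ∧ ∀ C, IsClone C → C 1 = T2 → ∀ n, C n ⊆ gen T2 n) ∧
    ∀ n, gen T2 n = {f | ∀ g : Fin (n + 1) → Op 1, (∀ i, g i ∈ T2) →
      (fun x => f fun i => g i x) ∈ T2} :=
  ⟨⟨⟨fun _ i => gen_G.2 (G.proj i), fun _ _ _ hf g hg =>
      gen_G.2 ((gen_G.1 hf).subst g fun i => gen_G.1 (hg i))⟩,
    Set.ext fun _ => gen_G.trans T2_G.symm,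
    fun C hC h n f hf => gen_G.2 (pol fun g hg => h ▸ hC.comp n 1 f hf g fun i => h.symm ▸ hg i)⟩,
  fun _ => Set.ext fun _ => ⟨fun hf g hg => T2_G.2 ((gen_G.1 hf).subst g fun i => T2_G.1 (hg i)),
    fun h => gen_G.2 (pol h)⟩⟩

end Pool.Agent.Results.MP_944b5f_al.Equal
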